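import Pool.Agent.Q178.StrongD.Space

set_option autoImplicit false

/-!
Products of strong d-spaces need not be strong d-spaces.
-/

universe u

namespace Pool.Agent.Results.MP_e2e219_gt.NotProductive

open Q178.StrongD Set

/-- **Products of strong d-spaces need not be strong d-spaces.** There is a strong d-space `Z`
such that `Z × Z` is a T0 space which is not a strong d-space, and, for every index type `I`
with at least two elements, the power `Z ^ I` with the product topology is a T0 space which is
not a strong d-space. -/
theorem result : ∃ (Z : Type) (_ : TopologicalSpace Z), IsStrongDSpace Z ∧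
    (T0Space (Z × Z) ∧ ¬ IsStrongDSpace (Z × Z)) ∧
    ∀ (I : Type u) [Nontrivial I], T0Space (I → Z) ∧ ¬ IsStrongDSpace (I → Z) := by
  classical
  refine ⟨Z, inferInstance, isStrongDSpace_Z, ⟨inferInstance, ?_⟩, fun I _ =>
    ⟨inferInstance, ?_⟩⟩
  · let h := (Homeomorph.piFinTwo fun _ => Z).symm
    apply not_strong (I := Fin 2) (fun p : Z × Z => h p) h.isInducing {1} 0 1 (by simp)
      (by simp) (fun α => (Z.l α, Z.l α)) ?_ (Z.o, Z.y) ?_ ?_ (fun α => (Z.l α, Z.b α)) ?_ ?_
    · intro α i
      fin_cases i <;> rfl
    · intro i hi
      rw [mem_singleton_iff] at hi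
      subst hi
      rfl
    · intro i hi
      fin_cases i
      · rfl
      · exact absurd rfl hi
    · intro α i hi
      rw [mem_singleton_iff] at hi
      subst hi
      rfl
    · intro α i hi
      fin_cases i
      · rfl
      · exact absurd rfl hi
  · obtain ⟨x0, x1, hne⟩ := exists_pair_ne I
    apply not_strong (I := I) (fun p : I → Z => p) Topology.IsInducing.id {x1} x0 x1
      (by simpa using hne) (by simp) (fun α _ => Z.l α) (fun _ _ => rfl)
      (fun i => if i = x1 then Z.y else Z.o) ?_ ?_
      (fun α i => if i = x1 then Z.b α else Z.l α) ?_ ?_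
    · intro i hi
      exact if_pos hi
    · intro i hi
      exact if_neg hi
    · intro α i hi
      exact if_pos hi
    · intro α i hi
      exact if_neg hi

end Pool.Agent.Results.MP_e2e219_gt.NotProductive
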